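import Pool.Agent.KS6_49.L8.Helper227.Test

set_option autoImplicit false

namespace Pool.Agent.Helper227

open Encodable

/-- `p` is Sigma-one relative to the oracle `B`. -/
def SI (B : ℕ → Bool) {α : Type*} [Primcodable α] (p : α → Prop) : Prop :=
  ∃ E : List Bool × α → Prop, S1 E ∧ (∀ σ τ a, σ <+: τ → E (σ, a) → E (τ, a)) ∧
    ∀ a, p a ↔ ∃ s, E (pre B s, a)

theorem recIn_graph' {A : ℕ → Bool} {α β : Type*} [Primcodable α] [Primcodable β] {f : α →. β}
    (hf : RecursiveIn {chi A} f) :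
    ∃ G : List Bool × α × β → Prop, S1 G ∧
      (∀ σ τ a b, σ <+: τ → G (σ, a, b) → G (τ, a, b)) ∧
      ∀ a b, b ∈ f a ↔ ∃ s, G (pre A s, a, b) := by
  obtain ⟨G, hG, mG, eG⟩ := recIn_graph hf
  refine ⟨fun x => G (x.1, encode x.2.1, encode x.2.2), hG.comp ?_, ?_, ?_⟩
  · exact Primrec.fst.pair ((Primrec.encode.comp (Primrec.fst.comp Primrec.snd)).pair
      (Primrec.encode.comp (Primrec.snd.comp Primrec.snd)))
  · exact fun σ τ a b h h2 => mG _ _ _ _ h h2
  · intro a b
    refine Iff.trans ?_ (eG (encode a) (encode b))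
    simp [encodek]

theorem recIn_of_graph' {A : ℕ → Bool} {α β : Type*} [Primcodable α] [Primcodable β] {f : α →. β}
    {G : List Bool × α × β → Prop} (hG : S1 G)
    (e : ∀ a b, b ∈ f a ↔ ∃ s, G (pre A s, a, b)) : RecursiveIn {chi A} f := by
  classical
  unfold RecursiveIn
  refine recIn_of_graph (G := fun x => ∃ a : α, ∃ b : β, (decode (α := α) x.2.1 = some a ∧
    encode b = x.2.2) ∧ G (x.1, a, b)) ?_ ?_
  · refine S1.ex (S1.ex (S1.and (S1.of_prim (PrimrecPred.and ?_ ?_)) (hG.comp ?_)))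
    · exact Primrec.eq.comp (Primrec.decode.comp
        (Primrec.fst.comp (Primrec.snd.comp (Primrec.fst.comp Primrec.fst))))
        (Primrec.option_some.comp (Primrec.snd.comp Primrec.fst))
    · exact Primrec.eq.comp (Primrec.encode.comp Primrec.snd)
        (Primrec.snd.comp (Primrec.snd.comp (Primrec.fst.comp Primrec.fst)))
    · exact (Primrec.fst.comp (Primrec.fst.comp Primrec.fst)).pair
        ((Primrec.snd.comp Primrec.fst).pair Primrec.snd)
  · intro n m
    simp only [Part.mem_bind_iff, Part.mem_map_iff, Part.mem_coe, Option.mem_def]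
    constructor
    · rintro ⟨a, ha, b, hb, rfl⟩
      obtain ⟨s, hs⟩ := (e a b).1 hb
      exact ⟨s, a, b, ⟨ha, rfl⟩, hs⟩
    · rintro ⟨s, a, b, ⟨ha, rfl⟩, hG⟩
      exact ⟨a, ha, b, (e a b).2 ⟨s, hG⟩, rfl⟩

namespace SI

variable {α β γ : Type*} [Primcodable α] [Primcodable β] [Primcodable γ] {A B : ℕ → Bool}

theorem of_eq {p q : α → Prop} (hp : SI B p) (h : ∀ a, p a ↔ q a) : SI B q :=
  (funext fun a => propext (h a) : p = q) ▸ hp

theorem of_s1 {p : α → Prop} (hp : S1 p) : SI B p :=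
  ⟨fun x => p x.2, hp.comp Primrec.snd, fun _ _ _ _ h => h, fun _ => by simp⟩

theorem of_prim {p : α → Prop} (hp : PrimrecPred p) : SI B p := of_s1 (S1.of_prim hp)

theorem comp {p : β → Prop} {f : α → β} (hp : SI B p) (hf : Primrec f) : SI B fun a => p (f a) := by
  obtain ⟨E, hE, mE, eE⟩ := hp
  exact ⟨fun x => E (x.1, f x.2), hE.comp (Primrec.fst.pair (hf.comp Primrec.snd)),
    fun σ τ a h => mE _ _ _ h, fun a => eE _⟩

theorem comp_computable {p : β → Prop} {f : α → β} (hp : SI B p) (hf : Computable f) :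
    SI B fun a => p (f a) := by
  obtain ⟨E, hE, mE, eE⟩ := hp
  exact ⟨fun x => E (x.1, f x.2), hE.comp_computable (Computable.fst.pair (hf.comp Computable.snd)),
    fun σ τ a h => mE _ _ _ h, fun a => eE _⟩

theorem and {p q : α → Prop} (hp : SI B p) (hq : SI B q) : SI B fun a => p a ∧ q a := by
  obtain ⟨E, hE, mE, eE⟩ := hp
  obtain ⟨F, hF, mF, eF⟩ := hq
  refine ⟨fun x => E x ∧ F x, hE.and hF, fun σ τ a h h2 => ⟨mE _ _ _ h h2.1, mF _ _ _ h h2.2⟩,
    fun a => ?_⟩
  refine (and_congr (eE a) (eF a)).trans ?_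
  constructor
  · rintro ⟨⟨s, hs⟩, ⟨t, ht⟩⟩
    exact ⟨max s t, mE _ _ _ (pre_prefix B (le_max_left _ _)) hs,
      mF _ _ _ (pre_prefix B (le_max_right _ _)) ht⟩
  · rintro ⟨s, h1, h2⟩
    exact ⟨⟨s, h1⟩, ⟨s, h2⟩⟩

theorem or {p q : α → Prop} (hp : SI B p) (hq : SI B q) : SI B fun a => p a ∨ q a := by
  obtain ⟨E, hE, mE, eE⟩ := hp
  obtain ⟨F, hF, mF, eF⟩ := hq
  refine ⟨fun x => E x ∨ F x, hE.or hF, fun σ τ a h h2 => h2.imp (mE _ _ _ h) (mF _ _ _ h),
    fun a => ?_⟩
  exact (or_congr (eE a) (eF a)).trans exists_or.symm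

theorem ex {p : α → β → Prop} (hp : SI B fun x : α × β => p x.1 x.2) : SI B fun a => ∃ b, p a b := by
  obtain ⟨E, hE, mE, eE⟩ := hp
  refine ⟨fun x => ∃ b, E (x.1, (x.2, b)), S1.ex (hE.comp ?_), ?_, fun a => ?_⟩
  · exact (Primrec.fst.comp Primrec.fst).pair ((Primrec.snd.comp Primrec.fst).pair Primrec.snd)
  · rintro σ τ a h ⟨b, hb⟩
    exact ⟨b, mE _ _ _ h hb⟩
  · constructor
    · rintro ⟨b, hb⟩
      obtain ⟨s, hs⟩ := (eE (a, b)).1 hb
      exact ⟨s, b, hs⟩
    · rintro ⟨s, b, hs⟩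
      exact ⟨b, (eE (a, b)).2 ⟨s, hs⟩⟩

theorem all_mem {p : α → β → Prop} {f : α → List β} (hp : SI B fun x : α × β => p x.1 x.2)
    (hf : Primrec f) : SI B fun a => ∀ b ∈ f a, p a b := by
  obtain ⟨E, hE, mE, eE⟩ := hp
  refine ⟨fun x => ∀ b ∈ f x.2, E (x.1, (x.2, b)), S1.all_mem (hE.comp ?_) (hf.comp Primrec.snd),
    ?_, fun a => ?_⟩
  · exact (Primrec.fst.comp Primrec.fst).pair ((Primrec.snd.comp Primrec.fst).pair Primrec.snd)
  · rintro σ τ a h h2 b hb
    exact mE _ _ _ h (h2 b hb)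
  · have : ∀ L : List β, (∀ b ∈ L, p a b) ↔ ∃ s, ∀ b ∈ L, E (pre B s, (a, b)) := by
      intro L
      induction L with
      | nil => simp
      | cons c L ih =>
        simp only [List.mem_cons, forall_eq_or_imp, ih]
        have := eE (a, c)
        simp only at this
        rw [this]
        constructor
        · rintro ⟨⟨m, hm'⟩, ⟨n, hn⟩⟩
          exact ⟨max m n, mE _ _ _ (pre_prefix B (le_max_left _ _)) hm',
            fun b hb => mE _ _ _ (pre_prefix B (le_max_right _ _)) (hn b hb)⟩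
        · rintro ⟨n, h1, h2⟩
          exact ⟨⟨n, h1⟩, ⟨n, h2⟩⟩
    exact this _

theorem all_lt {p : α → ℕ → Prop} {f : α → ℕ} (hp : SI B fun x : α × ℕ => p x.1 x.2)
    (hf : Primrec f) : SI B fun a => ∀ b < f a, p a b :=
  (all_mem hp (Primrec.list_range.comp hf)).of_eq (by simp)

theorem query : SI B fun x : ℕ × Bool => B x.1 = x.2 := by
  refine ⟨fun x => x.1[x.2.1]? = some x.2.2, S1.of_prim ?_, ?_, ?_⟩
  · exact Primrec.eq.comp (Primrec.list_getElem?.comp Primrec.fst (Primrec.fst.comp Primrec.snd))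
      (Primrec.option_some.comp (Primrec.snd.comp Primrec.snd))
  · rintro σ τ ⟨n, b⟩ h h2
    simp only at h2 ⊢
    obtain ⟨ρ, rfl⟩ := h
    rw [List.getElem?_append_left]
    · exact h2
    · by_contra hc
      rw [List.getElem?_eq_none (by omega)] at h2
      cases h2
  · rintro ⟨n, b⟩
    simp only
    constructor
    · rintro rfl
      exact ⟨n + 1, pre_getElem? B _ _ (by omega)⟩
    · rintro ⟨s, hs⟩
      by_cases h : n < s
      · rw [pre_getElem? B _ _ h] at hs
        simpa using hs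
      · rw [pre_getElem?_none B _ _ (by omega)] at hs
        cases hs

theorem iff_ceIn {W : Set ℕ} : CEIn B W ↔ SI B (fun n => n ∈ W) := ceIn_iff

theorem _root_.Pool.Agent.Helper227.tLe_iff_SI : TLe A B ↔ SI B fun x : ℕ × Bool => A x.1 = x.2 := by
  rw [tLe_iff]
  constructor
  · rintro ⟨E, hE, mE, eE⟩
    exact ⟨E, hE, fun σ τ a h => mE _ _ _ _ h, fun a => eE _ _⟩
  · rintro ⟨E, hE, mE, eE⟩
    exact ⟨E, hE, fun σ τ n b h => mE _ _ _ h, fun n b => eE (n, b)⟩

theorem trans {p : α → Prop} (hp : SI A p) (h : TLe A B) : SI B p := by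
  obtain ⟨E, hE, mE, eE⟩ := hp
  have h1 := tLe_iff_SI.1 h
  have h2 : SI B fun a => ∃ σ : List Bool, (∀ i < σ.length, A i = σ.getD i false) ∧ E (σ, a) := by
    refine ex (p := fun a (σ : List Bool) => (∀ i < σ.length, A i = σ.getD i false) ∧ E (σ, a))
      (and ?_ ?_)
    · refine all_lt (α := α × List Bool) (p := fun x i => A i = x.2.getD i false)
        (f := fun x => x.2.length) ?_ (Primrec.list_length.comp Primrec.snd)
      exact h1.comp (f := fun z : (α × List Bool) × ℕ => (z.2, z.1.2.getD z.2 false))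
        (Primrec.snd.pair ((Primrec.list_getD false).comp (Primrec.snd.comp Primrec.fst) Primrec.snd))
    · exact of_s1 (hE.comp (Primrec.snd.pair Primrec.fst))
  refine h2.of_eq fun a => ?_
  rw [eE]
  constructor
  · rintro ⟨σ, h3, h4⟩
    refine ⟨σ.length, ?_⟩
    have : pre A σ.length = σ := by
      refine List.ext_getElem (by simp) fun i h5 h6 => ?_
      rw [getElem_pre, h3 i h6]
      simp [h6]
    rwa [this]
  · rintro ⟨s, hs⟩
    exact ⟨pre A s, fun i hi => (pre_getD A _ _ _ (by simpa using hi)).symm, hs⟩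

theorem iff_recIn {f : α →. β} : RecursiveIn {chi B} f ↔ SI B fun x : α × β => x.2 ∈ f x.1 := by
  constructor
  · intro h
    obtain ⟨G, hG, mG, eG⟩ := recIn_graph' h
    exact ⟨G, hG, fun σ τ a h => mG _ _ _ _ h, fun a => eG _ _⟩
  · rintro ⟨G, hG, mG, eG⟩
    exact recIn_of_graph' hG fun a b => eG (a, b)

end SI

theorem tLe_of_computable {A B : ℕ → Bool} {f : ℕ → ℕ} (hf : Computable f)
    (h : ∀ n, A n = B (f n)) : TLe A B := by
  rw [tLe_iff_SI]
  have h1 : SI B fun x : ℕ × Bool => B (f x.1) = x.2 :=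
    SI.comp_computable (f := fun x : ℕ × Bool => (f x.1, x.2)) SI.query
      ((hf.comp Computable.fst).pair Computable.snd)
  exact h1.of_eq fun x => by rw [h]

end Pool.Agent.Helper227
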